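import Pool.Agent.H84.CutB

namespace Pool.Agent.Results.MP_446da5_lc.NoWin

open Pool.Agent.H84.CutDefs

universe u

theorem result (γ κ : Cardinal.{u}) (hγ : γ.IsRegular)
    (h : κ = Order.succ γ ∨ κ < 2 ^ γ ∨ (κ = 2 ^ γ ∧ ∀ δ < γ, 2 ^ δ ≤ γ)) :
    ¬ ChooseWins κ.ord.ToType γ.ord.ToType :=
  Pool.Agent.H84.Cut.main hγ h

end Pool.Agent.Results.MP_446da5_lc.NoWin
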